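import Pool.Agent.Run7.h92.EH.Stm

/-!
# Piece EH_MEM: products of four generators lie in the fourth exterior power
-/

set_option autoImplicit false

namespace Pool.Agent.Run7.h92.EH

theorem t_MEM : S_MEM := by
  intro a b c d
  have h : ∀ i, g i ∈ LinearMap.range (ExteriorAlgebra.ι ℤ (M := V8)) := fun i => ⟨_, rfl⟩
  show _ ∈ LinearMap.range (ExteriorAlgebra.ι ℤ (M := V8)) ^ 4
  rw [pow_succ, pow_succ, pow_succ, pow_one]
  exact Submodule.mul_mem_mul (Submodule.mul_mem_mul (Submodule.mul_mem_mul (h a) (h b)) (h c))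
    (h d)

end Pool.Agent.Run7.h92.EH
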